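import Mathlib

/-!
Quantisation of Mishchenko-Fomenko subalgebras: definitions over a normed space `E` which is the
dual space of the Lie algebra `g` (all norms on `E` are equivalent).
-/

namespace Pool.Agent.H4.QM

variable {E g : Type} [NormedAddCommGroup E] [NormedSpace ℂ E] [LieRing g] [LieAlgebra ℂ g]

/-- `P` is in the algebra of functions generated by the set `S` -/
def Adj (S : Set (E → ℂ)) (P : E → ℂ) : Prop := P ∈ Algebra.adjoin ℂ S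

/-- The coefficient `f_k` of `f (a + t ξ) = f a + ∑ t ^ k f_k (ξ)`. -/
noncomputable def coef (a : E) (f : E → ℂ) (k : ℕ) (ξ : E) : ℂ :=
  (k.factorial : ℂ)⁻¹ * iteratedDeriv k (fun t : ℂ => f (a + t • ξ)) 0

/-- `u` is a combination of products of less than `k` elements of `g` -/
def Low (k : ℕ) (u : UniversalEnvelopingAlgebra ℂ g) : Prop :=
  u ∈ Submodule.span ℂ
    {v | ∃ l : List g, l.length < k ∧ v = (l.map (UniversalEnvelopingAlgebra.ι ℂ)).prod}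

variable (B : E → g → ℂ)

/-- `E` is the dual space of `g`, with the pairing `B` -/
def IsDual : Prop :=
  (∀ x, IsLinearMap ℂ fun ξ => B ξ x) ∧ (∀ ξ, IsLinearMap ℂ (B ξ)) ∧
    ∀ φ : g → ℂ, IsLinearMap ℂ φ → ∃! ξ, B ξ = φ

/-- `x` is in the stabiliser of `ξ` -/
def Stab (ξ : E) (x : g) : Prop := ∀ y, B ξ ⁅x, y⁆ = 0

/-- Local `Ad^*`-invariant functions at `a`: analytic near `a`, and constant along coadjoint
orbits near `a` (the derivative along all coadjoint directions vanishes). -/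
def LocInv (a : E) (f : E → ℂ) : Prop :=
  AnalyticAt ℂ f a ∧ ∀ᶠ ξ in nhds a, ∀ (x : g) (η : E), (∀ y, B η y = B ξ ⁅x, y⁆) →
    HasDerivAt (fun t : ℂ => f (ξ + t • η)) 0 0

/-- The Mishchenko-Fomenko subalgebra. -/
def MF (a : E) : (E → ℂ) → Prop := Adj {P | ∃ f k, LocInv B a f ∧ 1 ≤ k ∧ P = coef a f k}

/-- `u` is, modulo products of less than `k` elements, a combination of products of `k` elements of
`g`, and `P` is the corresponding homogeneous polynomial function of degree `k`: if `P ≠ 0` this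
says that `u` has filtration degree exactly `k` and principal symbol `P`. -/
def HasSym (k : ℕ) (u : UniversalEnvelopingAlgebra ℂ g) (P : E → ℂ) : Prop :=
  ∃ (m : ℕ) (c : Fin m → ℂ) (x : Fin m → Fin k → g),
    Low k (u - ∑ i, c i • (List.ofFn fun j => UniversalEnvelopingAlgebra.ι ℂ (x i j)).prod) ∧
    ∀ ξ, P ξ = ∑ i, c i * ∏ j, B ξ (x i j)

/-- `A` is a quantisation of the Mishchenko-Fomenko subalgebra at `a`. -/
def IsQuant (a : E) (A : Subalgebra ℂ (UniversalEnvelopingAlgebra ℂ g)) : Prop :=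
  (∀ u ∈ A, ∀ v ∈ A, u * v = v * u) ∧
    (∀ u ∈ A, u ≠ 0 → ∃ k P, MF B a P ∧ (∃ ξ, P ξ ≠ 0) ∧ HasSym B k u P) ∧
    ∀ P, MF B a P ↔ Adj {P | (∃ ξ, P ξ ≠ 0) ∧ ∃ u ∈ A, ∃ k, HasSym B k u P} P

/-- the dimension of the intersection of `V` with the stabiliser of `ξ` -/
noncomputable def dim (V : Submodule ℂ g) (ξ : E) : ℕ := Set.finrank ℂ {x | x ∈ V ∧ Stab B ξ x}

/-- `ξ` is generic with respect to `V` -/
def Gen (V : Submodule ℂ g) (ξ : E) : Prop :=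
  ∀ η, dim B ⊤ ξ ≤ dim B ⊤ η ∧ dim B V ξ ≤ dim B V η

/-- the conditions (i), (ii), (iii) for the abelian ideal `V` -/
def Cond (V : Submodule ℂ g) : Prop :=
  (∀ x ∈ V, ∀ y, ⁅y, x⁆ ∈ V ∧ (y ∈ V → ⁅y, x⁆ = 0)) ∧
    ((∀ ξ η, Gen B V ξ → Gen B V η → (∀ v ∈ V, B ξ v = B η v) → ∀ x, Stab B ξ x →
        ∃ v ∈ V, Stab B η (x - v)) ∨
      (∀ ξ, Gen B V ξ → ∀ x y : g, (∀ v ∈ V, B ξ ⁅x, v⁆ = 0) → (∀ v ∈ V, B ξ ⁅y, v⁆ = 0) →
        ⁅x, y⁆ ∈ V) ∨
      ∃ ξ, Gen B V ξ ∧ dim B ⊤ ξ + 2 * Module.finrank ℂ V = Module.finrank ℂ g + 2 * dim B V ξ)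

variable (g) in
/-- the conditions (iv), (v), (vi) for the Lie algebra `g` -/
def Special : Prop :=
  (∀ x y z w : g, ⁅⁅x, y⁆, ⁅z, w⁆⁆ = 0) ∨
    (∃ e : g → g, IsLinearMap ℂ e ∧ (∀ x y : g, ⁅x, e y⁆ = e ⁅x, y⁆) ∧ ∀ x, e x = 0 ↔ ∃ y, e y = x) ∨
    ∃ (N : ℕ) (φ : g → Matrix (Fin N) (Fin N) ℂ), IsLinearMap ℂ φ ∧ Function.Injective φ ∧
      (∀ x y : g, φ ⁅x, y⁆ = φ x * φ y - φ y * φ x) ∧ (∀ x i j, j < i → φ x i j = 0) ∧
      ∀ i j : Fin N, i.val < N / 2 → N / 2 ≤ j.val → ∃ x, φ x = Matrix.single i j 1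

end Pool.Agent.H4.QM
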