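import Pool.Agent.H51.MFT.Fam

/-! Quantisation of the Mishchenko-Fomenko subalgebra `F_a`, for every `a`, regular or not, for
Lie algebras with an abelian ideal `V` such that `stab ξ + V` depends only on the restriction of
`ξ` to `V`. -/

set_option autoImplicit false

open Module

namespace Pool.Agent.H4.QM.Old

open Pool.MFQ

/-- Let the finite dimensional complex Lie algebra `𝔤` belong to one of the following classes: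
(i) `𝔤` has an abelian ideal `V` such that for generic `ξ` in the dual space (`dim 𝔤_ξ` and
`dim (𝔤_ξ ∩ V)` minimal) `𝔤_ξ + V` depends only on the restriction of `ξ` to `V`;
(ii) `𝔤` has an abelian ideal `V` such that the stabiliser in `𝔤 / V` of the restriction of `ξ`
to `V` is abelian for generic `ξ`;
(iii) `𝔤` has an abelian ideal `V` such that `𝔤_ξ + V` is maximal isotropic for some generic `ξ`
(formula for the dimensions);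
(iv) `𝔤` is metabelian;
(v) `𝔤` has an element `ε` of the centroid with kernel equal to its image;
(vi) `𝔤` is (isomorphic to) a Lie algebra of upper triangular `N × N` matrices which contains
the matrix units `E_ij`, `i ≤ N / 2 < j`.
Then `F_a` has a quantisation for every `a` in the dual space, regular or not. -/
theorem result :
    ∀ (𝔤 : Type) [LieRing 𝔤] [LieAlgebra ℂ 𝔤] [FiniteDimensional ℂ 𝔤],
      ((∃ V : LieIdeal ℂ 𝔤, (∀ x ∈ V, ∀ y ∈ V, ⁅x, y⁆ = 0) ∧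
          ∀ ξ ξ' : Dual ℂ 𝔤, Gen V ξ → Gen V ξ' → (∀ v ∈ V, ξ v = ξ' v) →
            stab ξ ⊔ V.toSubmodule = stab ξ' ⊔ V.toSubmodule) ∨
        (∃ V : LieIdeal ℂ 𝔤, (∀ x ∈ V, ∀ y ∈ V, ⁅x, y⁆ = 0) ∧
          ∀ ξ : Dual ℂ 𝔤, Gen V ξ → ∀ x y : 𝔤, (∀ v ∈ V, ξ ⁅x, v⁆ = 0) →
            (∀ v ∈ V, ξ ⁅y, v⁆ = 0) → ⁅x, y⁆ ∈ V) ∨
        (∃ V : LieIdeal ℂ 𝔤, (∀ x ∈ V, ∀ y ∈ V, ⁅x, y⁆ = 0) ∧
          ∃ ξ : Dual ℂ 𝔤, Gen V ξ ∧ finrank ℂ (stab ξ) + 2 * finrank ℂ V.toSubmodule =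
            finrank ℂ 𝔤 + 2 * finrank ℂ (stab ξ ⊓ V.toSubmodule : Submodule ℂ 𝔤)) ∨
        (∀ x y z w : 𝔤, ⁅⁅x, y⁆, ⁅z, w⁆⁆ = 0) ∨
        (∃ ε : 𝔤 →ₗ[ℂ] 𝔤, (∀ x y : 𝔤, ⁅x, ε y⁆ = ε ⁅x, y⁆) ∧
          LinearMap.ker ε = LinearMap.range ε) ∨
        (∃ (N : ℕ) (φ : 𝔤 →ₗ[ℂ] Matrix (Fin N) (Fin N) ℂ), Function.Injective φ ∧
          (∀ x y : 𝔤, φ ⁅x, y⁆ = φ x * φ y - φ y * φ x) ∧
          (∀ (x : 𝔤) (i j : Fin N), j < i → φ x i j = 0) ∧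
          ∀ i j : Fin N, i.val < N / 2 → N / 2 ≤ j.val →
            ∃ x : 𝔤, φ x = Matrix.single i j 1)) →
      ∀ a : Dual ℂ 𝔤, ∃ A : Subalgebra ℂ (UniversalEnvelopingAlgebra ℂ 𝔤), IsQuant a A := by
  intro 𝔤 _ _ _ h a
  rcases h with ⟨V, h1, h2⟩ | ⟨V, h1, h2⟩ | ⟨V, h1, h2⟩ | h | ⟨ε, h1, h2⟩ |
    ⟨N, φ, h1, h2, h3, h4⟩
  · exact Pool.MFL.all_lim 𝔤 V h1 h2 a
  · exact Pool.MFL.all_lim 𝔤 V h1 (t_abs t_stv 𝔤 V h1 h2) a
  · exact Pool.MFL.all_lim 𝔤 V h1 (t_lag t_VRK 𝔤 V h1 h2) a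
  · exact Pool.MFM.all_meta 𝔤 h a
  · obtain ⟨V, hV⟩ : ∃ V : LieIdeal ℂ 𝔤, V.toSubmodule = LinearMap.ker ε :=
      ⟨{ LinearMap.ker ε with
          lie_mem := by
            intro x m hm
            have hm' : ε m = 0 := hm
            show ε ⁅x, m⁆ = 0
            rw [← h1, hm', lie_zero] }, rfl⟩
    obtain ⟨h3, h4⟩ := t_cen t_stv t_vin 𝔤 V ε ⟨h1, hV.symm, by rw [hV, h2]⟩
    exact Pool.MFL.all_lim 𝔤 V h3 h4 a
  · obtain ⟨V, h5, h6⟩ := Pool.MFT.fam 𝔤 N φ h1 h2 h3 h4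
    exact Pool.MFL.all_lim 𝔤 V h5 h6 a

end Pool.Agent.H4.QM.Old
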