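import Pool.Agent.H4.QM.Defs
import Pool.Agent.H4.QM.Old

/-!
The plain form of the theorem, from the bundled form.
-/

open Module

namespace Pool.Agent.H4.QM

open Pool.MFQ (coad stab IsReg AnNear Near taylorF Ulow)

variable {E g : Type} [NormedAddCommGroup E] [NormedSpace ℂ E] [LieRing g] [LieAlgebra ℂ g]
  {B : E → g → ℂ}

/-- the identification of `E` with the dual space -/
theorem dual_equiv (h : IsDual B) : ∃ e : E ≃ₗ[ℂ] Dual ℂ g, ∀ ξ x, e ξ x = B ξ x := by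
  obtain ⟨h1, h2, h3⟩ := h
  let L : E →ₗ[ℂ] Dual ℂ g :=
    { toFun := fun ξ => (h2 ξ).mk' (B ξ)
      map_add' := fun ξ η => by
        ext x
        exact (h1 x).map_add ξ η
      map_smul' := fun t ξ => by
        ext x
        exact (h1 x).map_smul t ξ }
  have hb : Function.Bijective L := by
    constructor
    · intro ξ η hξ
      obtain ⟨ζ, -, hu⟩ := h3 (B ξ) (h2 ξ)
      rw [hu ξ rfl, hu η ?_]
      funext x
      exact (LinearMap.congr_fun hξ x).symm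
    · intro φ
      obtain ⟨ξ, hξ, -⟩ := h3 φ φ.isLinear
      refine ⟨ξ, ?_⟩
      ext x
      exact congrFun hξ x
  exact ⟨LinearEquiv.ofBijective L hb, fun ξ x => rfl⟩

section

variable (e : E ≃ₗ[ℂ] Dual ℂ g) (he : ∀ ξ x, e ξ x = B ξ x)

include he

theorem mem_stab (ξ : E) (x : g) : x ∈ stab (e ξ) ↔ Stab B ξ x := by
  show (∀ y, e ξ ⁅x, y⁆ = 0) ↔ _
  simp only [he]
  rfl

theorem dim_eq (V : LieIdeal ℂ g) (ξ : E) :
    dim B V.toSubmodule ξ = finrank ℂ (stab (e ξ) ⊓ V.toSubmodule : Submodule ℂ g) := by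
  unfold dim Set.finrank
  have : {x | x ∈ V.toSubmodule ∧ Stab B ξ x}
      = ((stab (e ξ) ⊓ V.toSubmodule : Submodule ℂ g) : Set g) := by
    ext x
    rw [Set.mem_setOf_eq, SetLike.mem_coe, Submodule.mem_inf, mem_stab e he, and_comm]
  rw [this, Submodule.span_eq]

theorem dim_top (ξ : E) : dim B ⊤ ξ = finrank ℂ (stab (e ξ)) := by
  unfold dim Set.finrank
  have : {x | x ∈ (⊤ : Submodule ℂ g) ∧ Stab B ξ x} = (stab (e ξ) : Set g) := by
    ext x
    rw [Set.mem_setOf_eq, SetLike.mem_coe, mem_stab e he]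
    simp
  rw [this, Submodule.span_eq]

theorem gen_iff (V : LieIdeal ℂ g) (ξ : E) :
    Gen B V.toSubmodule ξ ↔ Pool.MFQ.Gen V (e ξ) := by
  unfold Gen Pool.MFQ.Gen Pool.MFQ.IsReg
  constructor
  · intro h
    refine ⟨fun ζ => ?_, fun ζ => ?_⟩
    · have := (h (e.symm ζ)).1
      rw [dim_top e he, dim_top e he, e.apply_symm_apply] at this
      exact this
    · have := (h (e.symm ζ)).2
      rw [dim_eq e he, dim_eq e he, e.apply_symm_apply] at this
      exact this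
  · rintro ⟨h1, h2⟩ η
    rw [dim_top e he, dim_top e he, dim_eq e he, dim_eq e he]
    exact ⟨h1 (e η), h2 (e η)⟩

/-- the class of Lie algebras -/
theorem classes [FiniteDimensional ℂ g] (h : (∃ V, Cond B V) ∨ Special g) :
    ((∃ V : LieIdeal ℂ g, (∀ x ∈ V, ∀ y ∈ V, ⁅x, y⁆ = 0) ∧
          ∀ ξ ξ' : Dual ℂ g, Pool.MFQ.Gen V ξ → Pool.MFQ.Gen V ξ' → (∀ v ∈ V, ξ v = ξ' v) →
            stab ξ ⊔ V.toSubmodule = stab ξ' ⊔ V.toSubmodule) ∨
        (∃ V : LieIdeal ℂ g, (∀ x ∈ V, ∀ y ∈ V, ⁅x, y⁆ = 0) ∧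
          ∀ ξ : Dual ℂ g, Pool.MFQ.Gen V ξ → ∀ x y : g, (∀ v ∈ V, ξ ⁅x, v⁆ = 0) →
            (∀ v ∈ V, ξ ⁅y, v⁆ = 0) → ⁅x, y⁆ ∈ V) ∨
        (∃ V : LieIdeal ℂ g, (∀ x ∈ V, ∀ y ∈ V, ⁅x, y⁆ = 0) ∧
          ∃ ξ : Dual ℂ g, Pool.MFQ.Gen V ξ ∧ finrank ℂ (stab ξ) + 2 * finrank ℂ V.toSubmodule =
            finrank ℂ g + 2 * finrank ℂ (stab ξ ⊓ V.toSubmodule : Submodule ℂ g)) ∨
        (∀ x y z w : g, ⁅⁅x, y⁆, ⁅z, w⁆⁆ = 0) ∨
        (∃ ε : g →ₗ[ℂ] g, (∀ x y : g, ⁅x, ε y⁆ = ε ⁅x, y⁆) ∧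
          LinearMap.ker ε = LinearMap.range ε) ∨
        (∃ (N : ℕ) (φ : g →ₗ[ℂ] Matrix (Fin N) (Fin N) ℂ), Function.Injective φ ∧
          (∀ x y : g, φ ⁅x, y⁆ = φ x * φ y - φ y * φ x) ∧
          (∀ (x : g) (i j : Fin N), j < i → φ x i j = 0) ∧
          ∀ i j : Fin N, i.val < N / 2 → N / 2 ≤ j.val →
            ∃ x : g, φ x = Matrix.single i j 1)) := by
  rcases h with ⟨V, hab, h⟩ | h | ⟨ε, hl, h1, h2⟩ | ⟨N, φ, hl, h1, h2, h3, h4⟩
  · obtain ⟨W, rfl⟩ : ∃ W : LieIdeal ℂ g, W.toSubmodule = V :=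
      ⟨{ V with
          lie_mem := by
            intro y x hx
            exact (hab x hx y).1 }, rfl⟩
    have hab' : ∀ x ∈ W, ∀ y ∈ W, ⁅x, y⁆ = 0 := fun x hx y hy => (hab y hy x).2 hx
    rcases h with h | h | ⟨ξ, hξ, h⟩
    · refine Or.inl ⟨W, hab', ?_⟩
      have key : ∀ ξ ξ' : Dual ℂ g, Pool.MFQ.Gen W ξ → Pool.MFQ.Gen W ξ' →
          (∀ v ∈ W, ξ v = ξ' v) → stab ξ ⊔ W.toSubmodule ≤ stab ξ' ⊔ W.toSubmodule := by
        intro ζ ζ' hζ hζ' hv
        obtain ⟨ξ, rfl⟩ := e.surjective ζ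
        obtain ⟨ξ', rfl⟩ := e.surjective ζ'
        refine sup_le (fun x hx => ?_) le_sup_right
        obtain ⟨v, hvW, hst⟩ := h ξ ξ' ((gen_iff e he W ξ).2 hζ) ((gen_iff e he W ξ').2 hζ')
          (fun v hv' => by rw [← he, ← he]; exact hv v hv') x ((mem_stab e he ξ x).1 hx)
        exact Submodule.mem_sup.2 ⟨x - v, (mem_stab e he ξ' _).2 hst, v, hvW, sub_add_cancel x v⟩
      intro ξ ξ' h1 h2 h3
      exact le_antisymm (key ξ ξ' h1 h2 h3) (key ξ' ξ h2 h1 fun v hv => (h3 v hv).symm)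
    · refine Or.inr (Or.inl ⟨W, hab', ?_⟩)
      intro ζ hζ x y hx hy
      obtain ⟨ξ, rfl⟩ := e.surjective ζ
      exact h ξ ((gen_iff e he W ξ).2 hζ) x y (fun v hv => by rw [← he]; exact hx v hv)
        (fun v hv => by rw [← he]; exact hy v hv)
    · refine Or.inr (Or.inr (Or.inl ⟨W, hab', e ξ, (gen_iff e he W ξ).1 hξ, ?_⟩))
      rw [dim_top e he, dim_eq e he] at h
      exact h
  · exact Or.inr (Or.inr (Or.inr (Or.inl h)))
  · refine Or.inr (Or.inr (Or.inr (Or.inr (Or.inl ⟨hl.mk' ε, h1, ?_⟩))))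
    ext x
    rw [LinearMap.mem_ker, LinearMap.mem_range]
    exact h2 x
  · exact Or.inr (Or.inr (Or.inr (Or.inr (Or.inr ⟨N, hl.mk' φ, h1, h2, h3, h4⟩))))

theorem hasSym_iff (k : ℕ) (u : UniversalEnvelopingAlgebra ℂ g) (P : E → ℂ) :
    HasSym B k u P ↔ Pool.MFQ.HasSym k u (fun ζ => P (e.symm ζ)) := by
  unfold HasSym Pool.MFQ.HasSym
  constructor
  · rintro ⟨m, c, x, h1, h2⟩
    refine ⟨m, c, x, h1, fun ζ => ?_⟩
    show P (e.symm ζ) = _
    rw [h2]
    simp only [← he, e.apply_symm_apply]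
  · rintro ⟨m, c, x, h1, h2⟩
    refine ⟨m, c, x, h1, fun ξ => ?_⟩
    have := h2 (e ξ)
    simp only [e.symm_apply_apply] at this
    rw [this]
    simp only [he]

theorem locInv_iff [FiniteDimensional ℂ g] (a : E) (f : E → ℂ) :
    LocInv B a f ↔ Pool.MFQ.LocInv (e a) (fun ζ => f (e.symm ζ)) := by
  have hfd : FiniteDimensional ℂ E := LinearEquiv.finiteDimensional e.symm
  -- the inner condition
  have hin : ∀ ξ : E, (∀ (x : g) (η : E), (∀ y, B η y = B ξ ⁅x, y⁆) →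
      HasDerivAt (fun t : ℂ => f (ξ + t • η)) 0 0) ↔
      ∀ x : g, HasDerivAt (fun s : ℂ => f (e.symm (e ξ + s • coad x (e ξ)))) 0 0 := by
    intro ξ
    have hf : ∀ (x : g) (η : E), (∀ y, B η y = B ξ ⁅x, y⁆) ↔ e η = coad x (e ξ) := by
      intro x η
      constructor
      · intro h
        ext y
        rw [he, h y]
        show _ = e ξ ⁅x, y⁆
        rw [he]
      · intro h y
        rw [← he, h]
        show e ξ ⁅x, y⁆ = _
        rw [he]
    have hg : ∀ (x : g) (η : E), e η = coad x (e ξ) →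
        (fun s : ℂ => f (e.symm (e ξ + s • coad x (e ξ)))) = fun t : ℂ => f (ξ + t • η) := by
      intro x η h
      funext s
      rw [← h, ← map_smul, ← map_add, e.symm_apply_apply]
    constructor
    · intro h x
      rw [hg x (e.symm (coad x (e ξ))) (e.apply_symm_apply _)]
      exact h x _ ((hf x _).2 (e.apply_symm_apply _))
    · intro h x η hη
      rw [← hg x η ((hf x η).1 hη)]
      exact h x
  have hcont : ∀ (n : ℕ) (w : (Fin n → ℂ) ≃ₗ[ℂ] Dual ℂ g),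
      Continuous (fun t : Fin n → ℂ => e.symm (w t)) := fun n w =>
    ((w.trans e.symm : (Fin n → ℂ) ≃ₗ[ℂ] E).toLinearMap).continuous_of_finiteDimensional
  have hcont' : ∀ (n : ℕ) (w : (Fin n → ℂ) ≃ₗ[ℂ] Dual ℂ g),
      Continuous (fun ξ : E => w.symm (e ξ)) := fun n w =>
    ((e.trans w.symm : E ≃ₗ[ℂ] (Fin n → ℂ)).toLinearMap).continuous_of_finiteDimensional
  unfold LocInv Pool.MFQ.LocInv Pool.MFQ.AnNear Pool.MFQ.Near
  constructor
  · rintro ⟨h1, h2⟩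
    let w : (Fin (finrank ℂ (Dual ℂ g)) → ℂ) ≃ₗ[ℂ] Dual ℂ g :=
      (finBasis ℂ (Dual ℂ g)).equivFun.symm
    have ha : e.symm (w (w.symm (e a))) = a := by
      rw [w.apply_symm_apply, e.symm_apply_apply]
    refine ⟨⟨_, w, ?_⟩, ⟨_, w, ?_⟩⟩
    · have hlin : AnalyticAt ℂ (fun t : Fin (finrank ℂ (Dual ℂ g)) → ℂ => e.symm (w t))
          (w.symm (e a)) := by
        exact ((LinearMap.toContinuousLinearMap
          ((w.trans e.symm : (Fin (finrank ℂ (Dual ℂ g)) → ℂ) ≃ₗ[ℂ] E).toLinearMap)).analyticAt _)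
      rw [← ha] at h1
      exact AnalyticAt.comp h1 hlin
    · have ht : Filter.Tendsto (fun t => e.symm (w t)) (nhds (w.symm (e a))) (nhds a) := by
        have := (hcont _ w).tendsto (w.symm (e a))
        rwa [ha] at this
      filter_upwards [ht.eventually h2] with t ht'
      have := (hin (e.symm (w t))).1 ht'
      rw [e.apply_symm_apply] at this
      exact this
  · rintro ⟨⟨n, w, h1⟩, ⟨m, v, h2⟩⟩
    refine ⟨?_, ?_⟩
    · have hlin : AnalyticAt ℂ (fun ξ : E => w.symm (e ξ)) a := by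
        exact ((LinearMap.toContinuousLinearMap
          ((e.trans w.symm : E ≃ₗ[ℂ] (Fin n → ℂ)).toLinearMap)).analyticAt _)
      have h3 := AnalyticAt.comp (f := fun ξ : E => w.symm (e ξ)) h1 hlin
      refine h3.congr ?_
      refine Filter.Eventually.of_forall fun ξ => ?_
      simp
    · have ht : Filter.Tendsto (fun ξ => v.symm (e ξ)) (nhds a) (nhds (v.symm (e a))) :=
        (hcont' _ v).tendsto a
      filter_upwards [ht.eventually h2] with ξ hξ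
      refine (hin ξ).2 ?_
      simpa using hξ

omit he in
theorem coef_eq (a : E) (f : E → ℂ) (k : ℕ) (ζ : Dual ℂ g) :
    coef a f k (e.symm ζ) = taylorF (e a) (fun ζ => f (e.symm ζ)) k ζ := by
  unfold coef taylorF
  simp

omit he in
theorem adj_iff (S : Set (E → ℂ)) (S' : Set (Dual ℂ g → ℂ))
    (h : ∀ P : E → ℂ, P ∈ S ↔ (fun ζ => P (e.symm ζ)) ∈ S') (P : E → ℂ) :
    Adj S P ↔ (fun ζ => P (e.symm ζ)) ∈ Algebra.adjoin ℂ S' := by
  let Ψ : (E → ℂ) →ₐ[ℂ] (Dual ℂ g → ℂ) :=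
    { toFun := fun P ζ => P (e.symm ζ)
      map_one' := rfl
      map_mul' := fun _ _ => rfl
      map_zero' := rfl
      map_add' := fun _ _ => rfl
      commutes' := fun _ => rfl }
  have hS : Ψ '' S = S' := by
    ext Q
    constructor
    · rintro ⟨P, hP, rfl⟩
      exact (h P).1 hP
    · intro hQ
      refine ⟨fun ξ => Q (e ξ), (h _).2 ?_, ?_⟩
      · simpa using hQ
      · funext ζ
        show Q (e (e.symm ζ)) = Q ζ
        rw [e.apply_symm_apply]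
  have hinj : Function.Injective Ψ := by
    intro P Q hPQ
    funext ξ
    have := congrFun hPQ (e ξ)
    simpa [Ψ] using this
  unfold Adj
  rw [← hS, ← AlgHom.map_adjoin]
  constructor
  · intro hP
    exact ⟨P, hP, rfl⟩
  · rintro ⟨Q, hQ, hQP⟩
    rw [← hinj hQP]
    exact hQ

theorem mf_iff [FiniteDimensional ℂ g] (a : E) (P : E → ℂ) :
    MF B a P ↔ (fun ζ => P (e.symm ζ)) ∈ Pool.MFQ.MF (e a) := by
  unfold MF Pool.MFQ.MF
  refine adj_iff e _ _ (fun P => ?_) P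
  constructor
  · rintro ⟨f, k, h1, h2, rfl⟩
    exact ⟨_, k, (locInv_iff e he a f).1 h1, h2, funext fun ζ => coef_eq e a f k ζ⟩
  · rintro ⟨f, k, h1, h2, h3⟩
    refine ⟨fun ξ => f (e ξ), k, (locInv_iff e he a _).2 ?_, h2, ?_⟩
    · simpa using h1
    · funext ξ
      have := congrFun h3 (e ξ)
      simp only [e.symm_apply_apply] at this
      rw [this]
      have h4 := coef_eq e a (fun ξ => f (e ξ)) k (e ξ)
      rw [e.symm_apply_apply] at h4
      rw [h4]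
      simp

theorem isQuant_of [FiniteDimensional ℂ g] (a : E)
    (A : Subalgebra ℂ (UniversalEnvelopingAlgebra ℂ g)) (h : Pool.MFQ.IsQuant (e a) A) :
    IsQuant B a A := by
  have hne : ∀ P : E → ℂ, (∃ ξ, P ξ ≠ 0) ↔ (fun ζ => P (e.symm ζ)) ≠ 0 := by
    intro P
    rw [Function.ne_iff]
    constructor
    · rintro ⟨ξ, hξ⟩
      exact ⟨e ξ, by simpa using hξ⟩
    · rintro ⟨ζ, hζ⟩
      exact ⟨e.symm ζ, hζ⟩
  refine ⟨h.comm, fun u hu hu0 => ?_, fun P => ?_⟩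
  · obtain ⟨k, P, hP0, hP, hs⟩ := h.sym_mem u hu hu0
    refine ⟨k, fun ξ => P (e ξ), ?_, ?_, ?_⟩
    · rw [mf_iff e he]
      simpa using hP
    · rw [hne]
      simpa using hP0
    · rw [hasSym_iff e he]
      simpa using hs
  · rw [mf_iff e he, h.gen]
    refine (adj_iff e _ _ (fun Q => ?_) P).symm
    show ((∃ ξ, Q ξ ≠ 0) ∧ ∃ u ∈ A, ∃ k, HasSym B k u Q) ↔ _ ∧ _
    rw [hne]
    simp only [hasSym_iff e he]

end

theorem main (g E : Type) [LieRing g] [LieAlgebra ℂ g] [FiniteDimensional ℂ g]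
    [NormedAddCommGroup E] [NormedSpace ℂ E] (B : E → g → ℂ) (hB : IsDual B)
    (h : (∃ V, Cond B V) ∨ Special g) (a : E) :
    ∃ A : Subalgebra ℂ (UniversalEnvelopingAlgebra ℂ g), IsQuant B a A := by
  obtain ⟨e, he⟩ := dual_equiv hB
  obtain ⟨A, hA⟩ := Old.result g (classes e he h) (e a)
  exact ⟨A, isQuant_of e he a A hA⟩

end Pool.Agent.H4.QM
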